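import Pool.Agent.Helper57.LJ.Exp

/-! Digits as fractional parts; the level of a frequency. -/

namespace Pool.Agent.Helper43.LJ

open Finset
open Pool.Agent.Helper57.LJ (dig)
open Pool.Agent.Helper57.PC (Fr ch Wn e)

theorem floor_fract_dig (b : ℕ) (hb : 2 ≤ b) (i a : ℕ) :
    Nat.floor ((b : ℝ) * Int.fract ((a : ℝ) / (b : ℝ) ^ (i + 1))) = dig b i a := by
  have hb0 : (b : ℝ) ≠ 0 := by
    have : b ≠ 0 := by omega
    exact_mod_cast this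
  have h1 : Int.fract ((a : ℝ) / (b : ℝ) ^ (i + 1)) =
      ((a % b ^ (i + 1) : ℕ) : ℝ) / ((b ^ (i + 1) : ℕ) : ℝ) := by
    rw [← Int.fract_div_natCast_eq_div_natCast_mod, Nat.cast_pow]
  have h0 : ∀ u : ℝ, (b : ℝ) * (u / ((b ^ (i + 1) : ℕ) : ℝ)) = u / ((b ^ i : ℕ) : ℝ) := by
    intro u
    have h3 : (b : ℝ) ^ i ≠ 0 := pow_ne_zero _ hb0
    rw [Nat.cast_pow, Nat.cast_pow, pow_succ, mul_div_assoc', mul_comm ((b : ℝ) ^ i),
      mul_div_mul_left _ _ hb0]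
  have h2 : (b : ℝ) * (((a % b ^ (i + 1) : ℕ) : ℝ) / ((b ^ (i + 1) : ℕ) : ℝ)) =
      ((a % b ^ (i + 1) : ℕ) : ℝ) / ((b ^ i : ℕ) : ℝ) := h0 _
  rw [h1, h2, Nat.floor_div_natCast, Nat.floor_natCast, pow_succ, Nat.mod_mul_right_div_self]
  rfl

theorem level_freq (b : ℕ) (hb : 2 ≤ b) (H : ℕ) (k : ℤ) (hk : k ≠ 0) (hkH : |k| ≤ H) :
    ∃ s ≤ H, ∃ ψ : ℕ → Fr, (∀ i, b ^ (i + 1) • ψ i = 0 ∧ b ^ i • ψ i ≠ 0) ∧
      ∀ i n : ℕ, ch n (ψ i) = e ((k : ℝ) * ((n : ℝ) / (b : ℝ) ^ (i + s + 1))) := by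
  have hb0 : (b : ℝ) ≠ 0 := by
    have : b ≠ 0 := by omega
    exact_mod_cast this
  have hfin : FiniteMultiplicity (b : ℤ) k := by
    rw [Int.finiteMultiplicity_iff]
    exact ⟨by simp; omega, hk⟩
  obtain ⟨k', hk', hnd⟩ := hfin.exists_eq_pow_mul_and_not_dvd
  set s := multiplicity (b : ℤ) k with hs
  have hk'0 : k' ≠ 0 := by
    rintro rfl
    exact hnd (dvd_zero _)
  have hsH : s ≤ H := by
    have h1 : ((b : ℤ)) ^ s ≤ |k| := by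
      rw [hk', abs_mul, abs_pow, abs_of_nonneg (by positivity : (0 : ℤ) ≤ (b : ℤ))]
      exact le_mul_of_one_le_right (by positivity) (Int.one_le_abs hk'0)
    have h2 : b ^ s ≤ H := by
      have := h1.trans hkH
      exact_mod_cast this
    have h3 : s < 2 ^ s := Nat.lt_two_pow_self
    have h4 : 2 ^ s ≤ b ^ s := Nat.pow_le_pow_left hb s
    omega
  refine ⟨s, hsH, fun i => (((k' : ℝ) / (b : ℝ) ^ (i + 1) : ℝ) : Fr), fun i => ⟨?_, ?_⟩, ?_⟩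
  · show b ^ (i + 1) • (((k' : ℝ) / (b : ℝ) ^ (i + 1) : ℝ) : Fr) = 0
    rw [← AddCircle.coe_nsmul, nsmul_eq_mul, Nat.cast_pow,
      mul_div_cancel₀ _ (pow_ne_zero _ hb0), AddCircle.coe_eq_zero_iff]
    exact ⟨k', by simp⟩
  · show b ^ i • (((k' : ℝ) / (b : ℝ) ^ (i + 1) : ℝ) : Fr) ≠ 0
    intro h
    rw [← AddCircle.coe_nsmul, nsmul_eq_mul, Nat.cast_pow, AddCircle.coe_eq_zero_iff] at h
    obtain ⟨n, hn⟩ := h
    apply hnd
    refine ⟨n, ?_⟩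
    have h3 : (b : ℝ) ^ i ≠ 0 := pow_ne_zero _ hb0
    have h4 : (n : ℝ) = (k' : ℝ) / b := by
      rw [zsmul_eq_mul, mul_one] at hn
      rw [hn, pow_succ]
      field_simp
    have h5 : ((k' : ℤ) : ℝ) = ((b * n : ℤ) : ℝ) := by
      push_cast
      rw [h4]
      field_simp
    exact_mod_cast h5
  · intro i n
    show ch n (((k' : ℝ) / (b : ℝ) ^ (i + 1) : ℝ) : Fr) = _
    rw [Pool.Agent.Helper57.PC.ch_eq_e]
    congr 1
    have h6 : (k : ℝ) = (b : ℝ) ^ s * k' := by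
      have := congrArg (fun z : ℤ => (z : ℝ)) hk'
      push_cast at this
      exact this
    have h7 : (b : ℝ) ^ s ≠ 0 := pow_ne_zero _ hb0
    have h8 : (b : ℝ) ^ (i + 1) ≠ 0 := pow_ne_zero _ hb0
    have h9 : (b : ℝ) ^ (i + s + 1) = (b : ℝ) ^ s * (b : ℝ) ^ (i + 1) := by
      rw [← pow_add]
      congr 1
      omega
    rw [h6, h9]
    field_simp

end Pool.Agent.Helper43.LJ
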