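import Pool.Agent.Helper57.LJ.Defs

/-!
Trigonometric majorants of closed sets of the circle, and of the arcs of digits.
-/

set_option autoImplicit false

open MeasureTheory Filter Topology Metric Finset

namespace Pool.Agent.Helper43.LJ

open Pool.Agent.Helper57.PC (Fr ch Wn e)

/-- the circle -/
abbrev Tor := AddCircle (1 : ℝ)

instance instProbTor : IsProbabilityMeasure (volume : Measure Tor) :=
  ⟨by rw [AddCircle.measure_univ, ENNReal.ofReal_one]⟩

lemma integrable_of_cont {E : Type*} [NormedAddCommGroup E] {f : Tor → E} (hf : Continuous f)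
    [SecondCountableTopologyEither Tor E] : Integrable f (volume : Measure Tor) :=
  hf.integrable_of_hasCompactSupport (HasCompactSupport.of_compactSpace f)

lemma integral_fourier_zero {m : ℤ} (hm : m ≠ 0) :
    ∫ x, (fourier m x : ℂ) ∂(volume : Measure Tor) = 0 :=
  integral_eq_zero_of_add_right_eq_neg (μ := (volume : Measure Tor))
    (fourier_add_half_inv_index hm one_pos)

/-- A closed set of measure at most `μ` has trigonometric majorants of mean at most `μ + ε`. -/
theorem majorant (V : Set Tor) (hV : IsClosed V) (μ ε : ℝ) (hμ : 0 ≤ μ) (hε : 0 < ε)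
    (hvol : (volume : Measure Tor) V ≤ ENNReal.ofReal μ) :
    ∃ (m0 : ℕ) (c : ℤ → ℂ), (c 0).re ≤ μ + ε ∧ ∀ x : Tor,
      V.indicator (fun _ => (1 : ℝ)) x ≤
        (∑ m ∈ Finset.Icc (-(m0 : ℤ)) m0, c m * fourier m x).re := by
  classical
  have hvol' : (volume : Measure Tor) V < ENNReal.ofReal (μ + ε / 2) :=
    lt_of_le_of_lt hvol ((ENNReal.ofReal_lt_ofReal_iff (by positivity)).2 (by linarith))
  obtain ⟨O, hVO, hO, hOv⟩ := Set.exists_isOpen_lt_of_lt V _ hvol'
  obtain ⟨f, hf0, hf1, hf⟩ := exists_continuous_zero_one_of_isClosed hO.isClosed_compl hV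
    (Set.disjoint_left.2 fun x hx hx' => hx (hVO hx'))
  set g : C(Tor, ℂ) := ⟨fun x => ((f x : ℝ) : ℂ), by fun_prop⟩ with hg
  have hgm : g ∈ (Submodule.span ℂ (Set.range (fourier (T := (1 : ℝ))))).topologicalClosure := by
    rw [span_fourier_closure_eq_top]; trivial
  have hgm' : g ∈ closure ((Submodule.span ℂ (Set.range (fourier (T := (1 : ℝ)))) :
      Submodule ℂ C(Tor, ℂ)) : Set C(Tor, ℂ)) := hgm
  obtain ⟨P, hP, hPg⟩ := Metric.mem_closure_iff.1 hgm' (ε / 4) (by positivity)
  obtain ⟨c0, hc0⟩ := Finsupp.mem_span_range_iff_exists_finsupp.1 hP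
  rw [dist_eq_norm] at hPg
  set m0 : ℕ := c0.support.sup Int.natAbs with hm0
  have hsub : c0.support ⊆ Finset.Icc (-(m0 : ℤ)) m0 := by
    intro m hm
    have := Finset.le_sup (f := Int.natAbs) hm
    rw [Finset.mem_Icc]
    omega
  have hPx : ∀ x : Tor, P x = ∑ m ∈ Finset.Icc (-(m0 : ℤ)) m0, c0 m * fourier m x := by
    intro x
    rw [← hc0, Finsupp.sum_of_support_subset _ hsub _ (by simp)]
    rw [ContinuousMap.sum_apply]
    rfl
  have hclose : ∀ x : Tor, |(P x).re - f x| ≤ ε / 4 := by
    intro x
    have h1 : ‖(g - P) x‖ ≤ ε / 4 := ((g - P).norm_coe_le_norm x).trans hPg.le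
    have h2 : ((g - P) x).re = f x - (P x).re := by
      simp [hg]
    rw [abs_sub_comm, ← h2]
    exact (Complex.abs_re_le_norm _).trans h1
  refine ⟨m0, fun m => c0 m + if m = 0 then ((ε / 4 : ℝ) : ℂ) else 0, ?_, ?_⟩
  · -- the mean
    have hint : ∫ x, P x ∂(volume : Measure Tor) = c0 0 := by
      simp only [hPx]
      rw [integral_finsetSum _ (fun m _ => integrable_of_cont (by fun_prop))]
      have e : ∀ m : ℤ, ∫ x, c0 m * (fourier m x : ℂ) ∂(volume : Measure Tor) =
          if m = 0 then c0 0 else 0 := by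
        intro m
        rw [integral_const_mul]
        by_cases hm : m = 0
        · subst hm
          simp
        · rw [if_neg hm, integral_fourier_zero hm, mul_zero]
      simp only [e]
      rw [Finset.sum_ite_eq' (Finset.Icc (-(m0 : ℤ)) m0) 0 (fun _ => c0 0), if_pos]
      rw [Finset.mem_Icc]; omega
    have hPint : Integrable (fun x => P x) (volume : Measure Tor) :=
      integrable_of_cont P.continuous
    have h1 : (c0 0).re = ∫ x, (P x).re ∂(volume : Measure Tor) := by
      rw [← hint]
      exact (integral_re hPint).symm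
    have h2 : ∫ x, (P x).re ∂(volume : Measure Tor) ≤ ∫ x, (f x + ε / 4) ∂(volume : Measure Tor) := by
      refine integral_mono hPint.re ?_ fun x => ?_
      · exact (integrable_of_cont f.continuous).add (integrable_const _)
      · have := (abs_le.1 (hclose x)).2
        show (P x).re ≤ f x + ε / 4
        linarith
    have h3 : ∫ x, (f x + ε / 4) ∂(volume : Measure Tor) ≤ μ + ε / 2 + ε / 4 := by
      rw [integral_add (integrable_of_cont f.continuous) (integrable_const _)]
      have h4 : ∫ x, f x ∂(volume : Measure Tor) ≤ μ + ε / 2 := by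
        have h5 : ∫ x, f x ∂(volume : Measure Tor) ≤
            ∫ x, O.indicator (fun _ => (1 : ℝ)) x ∂(volume : Measure Tor) := by
          refine integral_mono (integrable_of_cont f.continuous)
            ((integrable_const _).indicator hO.measurableSet) fun x => ?_
          by_cases hx : x ∈ O
          · rw [Set.indicator_of_mem hx]; exact (hf x).2
          · rw [Set.indicator_of_notMem hx]
            exact le_of_eq (hf0 hx)
        refine h5.trans ?_
        rw [integral_indicator_const _ hO.measurableSet, smul_eq_mul, mul_one]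
        unfold Measure.real
        have := ENNReal.toReal_mono (by simp) hOv.le
        rwa [ENNReal.toReal_ofReal (by positivity)] at this
      have h6 : (volume : Measure Tor).real Set.univ = 1 := probReal_univ
      rw [integral_const, smul_eq_mul, h6, one_mul]
      linarith
    show (c0 0 + if (0 : ℤ) = 0 then ((ε / 4 : ℝ) : ℂ) else 0).re ≤ μ + ε
    rw [if_pos rfl, Complex.add_re, Complex.ofReal_re, h1]
    linarith
  · intro x
    have e : ∑ m ∈ Finset.Icc (-(m0 : ℤ)) m0, (c0 m + if m = 0 then ((ε / 4 : ℝ) : ℂ) else 0) *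
        (fourier m x : ℂ) = P x + ((ε / 4 : ℝ) : ℂ) := by
      simp only [add_mul]
      rw [Finset.sum_add_distrib, ← hPx]
      congr 1
      simp only [ite_mul, zero_mul]
      rw [Finset.sum_ite_eq' (Finset.Icc (-(m0 : ℤ)) m0) 0
        (fun m => ((ε / 4 : ℝ) : ℂ) * (fourier m x : ℂ)), if_pos]
      · simp
      · rw [Finset.mem_Icc]; omega
    rw [e, Complex.add_re, Complex.ofReal_re]
    have h1 := (abs_le.1 (hclose x)).1
    by_cases hx : x ∈ V
    · rw [Set.indicator_of_mem hx]
      have : f x = 1 := hf1 hx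
      linarith
    · rw [Set.indicator_of_notMem hx]
      have := (hf x).1
      linarith

lemma fourier_eq_e (k : ℤ) (x : ℝ) : (fourier k (x : Tor) : ℂ) = e (k * x) := by
  rw [fourier_coe_apply, e]; congr 1; push_cast; ring

lemma mem_arc (b d : ℕ) (hb : 2 ≤ b) (t : ℝ) (h : Nat.floor ((b : ℝ) * Int.fract t) = d) :
    (t : Tor) ∈ closedBall (((2 * d + 1) / (2 * b) : ℝ) : Tor) (1 / (2 * b)) := by
  have hb0 : (0 : ℝ) < b := by
    have : 0 < b := by omega
    exact_mod_cast this
  have h0 : 0 ≤ (b : ℝ) * Int.fract t := mul_nonneg hb0.le (Int.fract_nonneg t)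
  have h1 : (d : ℝ) ≤ b * Int.fract t := by
    rw [← h]
    exact Nat.floor_le h0
  have h2 : (b : ℝ) * Int.fract t < d + 1 := by
    rw [← h]
    exact Nat.lt_floor_add_one _
  have h3 : (t : Tor) = ((Int.fract t : ℝ) : Tor) := by
    rw [Int.fract, AddCircle.coe_sub]
    have : ((⌊t⌋ : ℝ) : Tor) = 0 := by
      rw [AddCircle.coe_eq_zero_iff]
      exact ⟨⌊t⌋, by simp⟩
    rw [this, sub_zero]
  rw [mem_closedBall, dist_eq_norm, h3, ← AddCircle.coe_sub]
  refine (QuotientAddGroup.norm_mk_le_norm).trans ?_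
  rw [Real.norm_eq_abs, abs_le]
  constructor
  · rw [← sub_nonneg]
    have : Int.fract t - (2 * d + 1) / (2 * b) - -(1 / (2 * b)) = (b * Int.fract t - d) / b := by
      field_simp
      ring
    rw [this]
    exact div_nonneg (by linarith) hb0.le
  · rw [← sub_nonneg]
    have : 1 / (2 * b) - (Int.fract t - (2 * d + 1) / (2 * b)) = (d + 1 - b * Int.fract t) / b := by
      field_simp
      ring
    rw [this]
    exact div_nonneg (by linarith) hb0.le

/-- Trigonometric majorants of the arcs `[d / b, (d + 1) / b)`. -/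
theorem maj (b : ℕ) (hb : 2 ≤ b) (ε : ℝ) (hε : 0 < ε) :
    ∃ (H : ℕ) (c : ℕ → ℤ → ℂ), ∀ d < b,
      (∀ t : ℝ, (if Nat.floor ((b : ℝ) * Int.fract t) = d then (1 : ℝ) else 0) ≤
        (∑ k ∈ Finset.Icc (-(H : ℤ)) H, c d k * e (k * t)).re) ∧ (c d 0).re ≤ 1 / b + ε := by
  have hb0 : (0 : ℝ) < b := by
    have : 0 < b := by omega
    exact_mod_cast this
  have h := fun d : ℕ => majorant (closedBall (((2 * d + 1) / (2 * b) : ℝ) : Tor) (1 / (2 * b)))
    isClosed_closedBall (1 / b) ε (by positivity) hε (by
      rw [AddCircle.volume_closedBall]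
      refine ENNReal.ofReal_le_ofReal ((min_le_right _ _).trans (le_of_eq ?_))
      field_simp)
  choose m c hc hm using h
  refine ⟨(Finset.range b).sup m, fun d k => if k.natAbs ≤ m d then c d k else 0,
    fun d hd => ⟨fun t => ?_, ?_⟩⟩
  · have hle : m d ≤ (Finset.range b).sup m := Finset.le_sup (Finset.mem_range.2 hd)
    have hsum : ∑ k ∈ Finset.Icc (-(((Finset.range b).sup m : ℕ) : ℤ)) ((Finset.range b).sup m : ℕ),
        (if k.natAbs ≤ m d then c d k else 0) * e (k * t) =
        ∑ k ∈ Finset.Icc (-(m d : ℤ)) (m d), c d k * fourier k (t : Tor) := by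
      symm
      refine (Finset.sum_subset_zero_on_sdiff ?_ ?_ ?_)
      · intro k hk
        rw [Finset.mem_Icc] at hk ⊢
        omega
      · intro k hk
        rw [Finset.mem_sdiff, Finset.mem_Icc, Finset.mem_Icc] at hk
        rw [if_neg (by omega), zero_mul]
      · intro k hk
        rw [Finset.mem_Icc] at hk
        rw [if_pos (by omega), fourier_eq_e]
    rw [hsum]
    refine le_trans ?_ (hm d (t : Tor))
    by_cases h : Nat.floor ((b : ℝ) * Int.fract t) = d
    · rw [if_pos h, Set.indicator_of_mem (mem_arc b d hb t h)]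
    · rw [if_neg h]
      exact Set.indicator_nonneg (fun _ _ => zero_le_one) _
  · show (if (0 : ℤ).natAbs ≤ m d then c d 0 else 0).re ≤ _
    rw [if_pos (by simp)]
    exact hc d

end Pool.Agent.Helper43.LJ
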